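import Pool.Agent.Q74.PD.Stm9

/-! # `L^p` from the tail, for `p < 2` -/

set_option autoImplicit false

namespace Pool.Agent.Q195.PD

open Finset Filter Topology MeasureTheory
open Pool.Agent.Q74.PD

/-- the pointwise bound -/
lemma ptw (x p : ℝ) (hx : 0 ≤ x) (hp1 : 1 ≤ p) :
    ENNReal.ofReal (x ^ p) ≤ 1 + ∑' j : ℕ, ENNReal.ofReal ((2 : ℝ) ^ (((j : ℝ) + 1) * (p - 1))) *
      (if (2 : ℝ) ^ j < x then ENNReal.ofReal x else 0) := by
  by_cases h1 : x ≤ 1
  · calc ENNReal.ofReal (x ^ p) ≤ ENNReal.ofReal 1 :=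
          ENNReal.ofReal_le_ofReal (Real.rpow_le_one hx h1 (by linarith))
      _ = 1 := ENNReal.ofReal_one
      _ ≤ _ := le_self_add
  · push Not at h1
    -- the exponent
    obtain ⟨j, hj1, hj2⟩ : ∃ j : ℕ, (2 : ℝ) ^ j < x ∧ x ≤ 2 ^ (j + 1) := by
      have hex : ∃ m : ℕ, x ≤ (2 : ℝ) ^ m := by
        obtain ⟨m, hm⟩ := pow_unbounded_of_one_lt x (one_lt_two)
        exact ⟨m, hm.le⟩
      classical
      have hs := Nat.find_spec hex
      have hpos : Nat.find hex ≠ 0 := by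
        intro h0
        rw [h0, pow_zero] at hs
        linarith
      obtain ⟨j, hj⟩ := Nat.exists_eq_succ_of_ne_zero hpos
      refine ⟨j, ?_, ?_⟩
      · have := Nat.find_min hex (m := j) (by omega)
        exact not_le.mp this
      · rw [hj] at hs
        exact hs
    have hx0 : 0 < x := by linarith
    have hb : x ^ p ≤ (2 : ℝ) ^ (((j : ℝ) + 1) * (p - 1)) * x := by
      have e1 : x ^ p = x ^ (p - 1) * x := by
        rw [← Real.rpow_add_one hx0.ne' (p - 1)]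
        ring_nf
      rw [e1]
      apply mul_le_mul_of_nonneg_right _ hx
      calc x ^ (p - 1) ≤ ((2 : ℝ) ^ (j + 1)) ^ (p - 1) := Real.rpow_le_rpow hx hj2 (by linarith)
        _ = (2 : ℝ) ^ (((j : ℝ) + 1) * (p - 1)) := by
          rw [Real.rpow_mul (by norm_num)]
          congr 1
          rw [← Real.rpow_natCast]
          push_cast
          rfl
    calc ENNReal.ofReal (x ^ p) ≤ ENNReal.ofReal ((2 : ℝ) ^ (((j : ℝ) + 1) * (p - 1)) * x) :=
          ENNReal.ofReal_le_ofReal hb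
      _ = ENNReal.ofReal ((2 : ℝ) ^ (((j : ℝ) + 1) * (p - 1))) * (if (2 : ℝ) ^ j < x then ENNReal.ofReal x else 0) := by
          rw [if_pos hj1, ENNReal.ofReal_mul (by positivity)]
      _ ≤ ∑' j : ℕ, ENNReal.ofReal ((2 : ℝ) ^ (((j : ℝ) + 1) * (p - 1))) *
            (if (2 : ℝ) ^ j < x then ENNReal.ofReal x else 0) :=
          ENNReal.le_tsum (f := fun j : ℕ => ENNReal.ofReal ((2 : ℝ) ^ (((j : ℝ) + 1) * (p - 1))) *
            (if (2 : ℝ) ^ j < x then ENNReal.ofReal x else 0)) j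
      _ ≤ _ := le_add_self

theorem lpp : S_Lpp := by
  intro Ω _ μ _ D hDm hD0 hDi hT p hp1 hp2
  obtain ⟨C, hC⟩ := hT ((2 - p) / 2) (by linarith)
  have hmeas : AEStronglyMeasurable (fun z => D z ^ p) μ := (hDm.pow_const p).aestronglyMeasurable
  refine ⟨hmeas, ?_⟩
  rw [hasFiniteIntegral_iff_ofReal (Filter.Eventually.of_forall fun z => Real.rpow_nonneg (hD0 z) p)]
  have hDo : Measurable (fun z => ENNReal.ofReal (D z)) := hDm.ennreal_ofReal
  have hset : ∀ j : ℕ, MeasurableSet {z | (2 : ℝ) ^ j < D z} := fun j => measurableSet_lt measurable_const hDm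
  -- the integral of one summand
  have hone : ∀ j : ℕ, ∫⁻ z, ENNReal.ofReal ((2 : ℝ) ^ (((j : ℝ) + 1) * (p - 1))) *
      (if (2 : ℝ) ^ j < D z then ENNReal.ofReal (D z) else 0) ∂μ ≤
      ENNReal.ofReal ((2 : ℝ) ^ (p - 1) * |C| * ((2 : ℝ) ^ (-((2 - p) / 2))) ^ j) := by
    intro j
    have hm : Measurable (fun z => if (2 : ℝ) ^ j < D z then ENNReal.ofReal (D z) else 0) :=
      Measurable.ite (hset j) hDo measurable_const
    rw [lintegral_const_mul _ hm]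
    have e1 : ∫⁻ z, (if (2 : ℝ) ^ j < D z then ENNReal.ofReal (D z) else 0) ∂μ =
        ENNReal.ofReal (∫ z in {z | (2 : ℝ) ^ j < D z}, D z ∂μ) := by
      rw [ofReal_integral_eq_lintegral_ofReal hDi.integrableOn
        (Filter.Eventually.of_forall fun z => hD0 z), ← lintegral_indicator (hset j)]
      apply lintegral_congr
      intro z
      by_cases hz : (2 : ℝ) ^ j < D z
      · rw [if_pos hz, Set.indicator_of_mem (show z ∈ {z | (2 : ℝ) ^ j < D z} from hz)]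
      · rw [if_neg hz, Set.indicator_of_notMem (show z ∉ {z | (2 : ℝ) ^ j < D z} from hz)]
    rw [e1, ← ENNReal.ofReal_mul (by positivity)]
    apply ENNReal.ofReal_le_ofReal
    have h2 := hC ((2 : ℝ) ^ j) (one_le_pow₀ (by norm_num))
    have h3 : ((2 : ℝ) ^ j) ^ ((2 - p) / 2 - 1) = (2 : ℝ) ^ ((j : ℝ) * ((2 - p) / 2 - 1)) := by
      rw [Real.rpow_mul (by norm_num), Real.rpow_natCast]
    have h4 : ((2 : ℝ) ^ (-((2 - p) / 2))) ^ j = (2 : ℝ) ^ ((j : ℝ) * (-((2 - p) / 2))) := by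
      rw [mul_comm, Real.rpow_mul (by norm_num), Real.rpow_natCast]
    calc (2 : ℝ) ^ (((j : ℝ) + 1) * (p - 1)) * ∫ z in {z | (2 : ℝ) ^ j < D z}, D z ∂μ
        ≤ (2 : ℝ) ^ (((j : ℝ) + 1) * (p - 1)) * (C * ((2 : ℝ) ^ j) ^ ((2 - p) / 2 - 1)) :=
          mul_le_mul_of_nonneg_left h2 (by positivity)
      _ ≤ (2 : ℝ) ^ (((j : ℝ) + 1) * (p - 1)) * (|C| * ((2 : ℝ) ^ j) ^ ((2 - p) / 2 - 1)) := by
          apply mul_le_mul_of_nonneg_left _ (by positivity)
          exact mul_le_mul_of_nonneg_right (le_abs_self C) (by positivity)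
      _ = (2 : ℝ) ^ (p - 1) * |C| * ((2 : ℝ) ^ (-((2 - p) / 2))) ^ j := by
          rw [h3, h4]
          have h5 : (2 : ℝ) ^ (((j : ℝ) + 1) * (p - 1)) * (2 : ℝ) ^ ((j : ℝ) * ((2 - p) / 2 - 1)) =
              (2 : ℝ) ^ (p - 1) * (2 : ℝ) ^ ((j : ℝ) * (-((2 - p) / 2))) := by
            rw [← Real.rpow_add (by norm_num), ← Real.rpow_add (by norm_num)]
            congr 1
            ring
          calc (2 : ℝ) ^ (((j : ℝ) + 1) * (p - 1)) * (|C| * (2 : ℝ) ^ ((j : ℝ) * ((2 - p) / 2 - 1)))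
              = ((2 : ℝ) ^ (((j : ℝ) + 1) * (p - 1)) * (2 : ℝ) ^ ((j : ℝ) * ((2 - p) / 2 - 1))) * |C| := by ring
            _ = _ := by rw [h5]; ring
  have hr1 : (2 : ℝ) ^ (-((2 - p) / 2)) < 1 := Real.rpow_lt_one_of_one_lt_of_neg (by norm_num) (by linarith)
  have hr0 : 0 ≤ (2 : ℝ) ^ (-((2 - p) / 2)) := by positivity
  have hsum : Summable (fun j : ℕ => (2 : ℝ) ^ (p - 1) * |C| * ((2 : ℝ) ^ (-((2 - p) / 2))) ^ j) :=
    (summable_geometric_of_lt_one hr0 hr1).mul_left _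
  calc ∫⁻ z, ENNReal.ofReal (D z ^ p) ∂μ
      ≤ ∫⁻ z, (1 + ∑' j : ℕ, ENNReal.ofReal ((2 : ℝ) ^ (((j : ℝ) + 1) * (p - 1))) *
          (if (2 : ℝ) ^ j < D z then ENNReal.ofReal (D z) else 0)) ∂μ :=
        lintegral_mono fun z => ptw (D z) p (hD0 z) hp1
    _ = 1 + ∑' j : ℕ, ∫⁻ z, ENNReal.ofReal ((2 : ℝ) ^ (((j : ℝ) + 1) * (p - 1))) *
          (if (2 : ℝ) ^ j < D z then ENNReal.ofReal (D z) else 0) ∂μ := by
        rw [lintegral_add_left measurable_const, lintegral_tsum]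
        · simp
        · intro j
          exact (Measurable.const_mul (Measurable.ite (hset j) hDo measurable_const) _).aemeasurable
    _ ≤ 1 + ∑' j : ℕ, ENNReal.ofReal ((2 : ℝ) ^ (p - 1) * |C| * ((2 : ℝ) ^ (-((2 - p) / 2))) ^ j) := by
        gcongr with j
        exact hone j
    _ = 1 + ENNReal.ofReal (∑' j : ℕ, (2 : ℝ) ^ (p - 1) * |C| * ((2 : ℝ) ^ (-((2 - p) / 2))) ^ j) := by
        rw [ENNReal.ofReal_tsum_of_nonneg (fun j => by positivity) hsum]
    _ < ⊤ := by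
        rw [ENNReal.add_lt_top]
        exact ⟨ENNReal.one_lt_top, ENNReal.ofReal_lt_top⟩

end Pool.Agent.Q195.PD
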