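import Pool.Agent.Q74.PD.Stm4
import Pool.Agent.Q74.PD.DH2

/-! Project PD (helper74), job Qha: the harmonic relation for sets invariant above `y`, at all scales
above `(1 + κ) log y`. -/

set_option autoImplicit false

namespace Pool.Agent.Q195.PD

open Finset Filter Topology
open Pool.Agent.H499R2.ND Pool.Agent.H320R2.PD Pool.Agent.Y856.PD Pool.Agent.Q74.PD

theorem cls_cover (S : Set ℤ) (a b : ℝ) (c : ℤ) :
    (cls S a b 0 1 0).card ≤
      (cls S a b 1 1 c).card + (cls S a b 1 1 (c + 1)).card + (cls S a b 1 1 (c + 2)).card := by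
  classical
  have hsub : cls S a b 0 1 0 ⊆ cls S a b 1 1 c ∪ cls S a b 1 1 (c + 1) ∪ cls S a b 1 1 (c + 2) := by
    intro x hx
    rw [mem_cls] at hx
    obtain ⟨h1, h2, h3, _⟩ := hx
    rw [mem_union, mem_union, mem_cls, mem_cls, mem_cls]
    rcases (by omega : (x - c) % 3 = 0 ∨ (x - c) % 3 = 1 ∨ (x - c) % 3 = 2) with h | h | h
    · exact Or.inl (Or.inl ⟨h1, h2, h3, by rw [pow_one]; omega⟩)
    · exact Or.inl (Or.inr ⟨h1, h2, h3, by rw [pow_one]; omega⟩)
    · exact Or.inr ⟨h1, h2, h3, by rw [pow_one]; omega⟩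
  exact (card_le_card hsub).trans
    ((card_union_le _ _).trans (Nat.add_le_add_right (card_union_le _ _) _))

/-- the odd elements -/
theorem odd_eq {d : ℤ} (hd : Odd d) (hd3 : IsCoprime d 3) {κ : ℝ} (hκ : 0 < κ) (hκ1 : κ ≤ 1 / 5) :
    ∃ C t₀ : ℝ, 0 < C ∧ 1000 ≤ t₀ ∧ ∀ y : ℝ, |(d : ℝ)| ≤ y → 1 ≤ y → ∀ S : Set ℤ, EInv y d S →
      ∀ A : ℝ, 0 < A → t₀ ≤ Real.log A → (1 + κ / 2) * Real.log y ≤ Real.log A → ∀ c c' : ℤ,
      ((cls S A (2 * A) 1 1 c).card : ℝ) ≤ (cls S A (2 * A) 1 1 c').card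
        + C / (Real.log A) ^ 2 * A := by
  obtain ⟨C, t₀, hC, ht₀, hfl⟩ := flat 2 hd hd3 (κ := κ / 4) (by linarith) (by linarith)
  refine ⟨C, t₀, hC, ht₀, ?_⟩
  intro y hdy hy1 S hS A hA ht hyt c c'
  have hy0 : 0 ≤ y := by linarith
  have key : ∀ v : ℤ, ((cls S A (2 * A) 1 1 v).card : ℝ) ≤ ((cls S A (2 * A) 0 1 0).card : ℝ) / 3
      + C / (Real.log A) ^ 2 * A / 6 := by
    intro v
    have h := hfl y hdy hy1 (Real.log A) ht (by linarith) S (hS.fwd hy0) (hS.compl.fwd hy0) A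
      (by rw [Real.exp_log hA]) 1 (by norm_num; linarith) 1 v isCoprime_one_left
    rw [pow_one] at h
    have e : C / Real.log A ^ 2 * (A / (2 * 3)) = C / (Real.log A) ^ 2 * A / 6 := by ring
    rw [e] at h
    exact h
  have hcov : ((cls S A (2 * A) 0 1 0).card : ℝ) ≤ (cls S A (2 * A) 1 1 c').card
      + (cls S A (2 * A) 1 1 (c' + 1)).card + (cls S A (2 * A) 1 1 (c' + 2)).card := by
    exact_mod_cast cls_cover S A (2 * A) c'
  have k0 := key c
  have k1 := key (c' + 1)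
  have k2 := key (c' + 2)
  have hpos : 0 ≤ C / (Real.log A) ^ 2 * A := by positivity
  linarith

/-- all elements: `n` halvings -/
theorem all_eq {d : ℤ} (hd : Odd d) (hd3 : IsCoprime d 3) {κ : ℝ} (hκ : 0 < κ) (hκ1 : κ ≤ 1 / 5) :
    ∃ C t₀ : ℝ, 0 < C ∧ 1000 ≤ t₀ ∧ ∀ y : ℝ, |(d : ℝ)| ≤ y → 1 ≤ y → ∀ S : Set ℤ, EInv y d S →
      ∀ T : ℝ, t₀ ≤ T → (1 + κ / 2) * Real.log y ≤ T → ∀ n : ℕ, ∀ A : ℝ, 0 < A →
      T + n * Real.log 2 ≤ Real.log A → ∀ c c' : ℤ,
      ((wc S A (2 * A) 3 c).card : ℝ) ≤ (wc S A (2 * A) 3 c').card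
        + (C / T ^ 2 * A + A / 2 ^ n + 1) := by
  obtain ⟨C, t₀, hC, ht₀, h⟩ := odd_eq hd hd3 hκ hκ1
  refine ⟨2 * C, t₀, by positivity, ht₀, ?_⟩
  intro y hdy hy1 S hS T hT hyT n
  have hy0 : 0 ≤ y := by linarith
  have hTpos : 0 < T := by linarith
  have hLy : 0 ≤ Real.log y := Real.log_nonneg hy1
  have hlyT : Real.log y < T := by
    rcases hLy.eq_or_lt with h0 | h0
    · rw [← h0]; exact hTpos
    · nlinarith
  have hyE : y < Real.exp T := by
    rw [← Real.exp_log (by linarith : 0 < y)]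
    exact Real.exp_lt_exp.2 hlyT
  have hl2 := Real.log_two_gt_d9
  induction n with
  | zero =>
    intro A hA hTA c c'
    have h3 := wc_card_le S (by linarith : A ≤ 2 * A) (q := 3) (by norm_num) c
    have h7 : (0 : ℝ) ≤ (wc S A (2 * A) 3 c').card := Nat.cast_nonneg _
    have h8 : 0 ≤ 2 * C / T ^ 2 * A := by positivity
    push_cast at h3
    have h9 : (2 * A - A) / 3 + 1 ≤ A + 1 := by linarith
    rw [pow_zero, div_one]
    linarith
  | succ n ih =>
    intro A hA hTA c c'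
    have hlog : Real.log (A / 2) = Real.log A - Real.log 2 := Real.log_div hA.ne' (by norm_num)
    push_cast at hTA
    have hih := ih (A / 2) (by linarith) (by rw [hlog]; linarith) (2 * c) (2 * c')
    have hn0 : (0 : ℝ) ≤ n * Real.log 2 := by positivity
    have hTA' : T ≤ Real.log A := by linarith
    have hodd := h y hdy hy1 S hS A hA (by linarith) (by linarith) c c'
    have hyA : y < A / 2 := by
      refine hyE.trans_le ?_
      have : T ≤ Real.log (A / 2) := by rw [hlog]; linarith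
      rw [← Real.exp_log (by linarith : 0 < A / 2)]
      exact Real.exp_le_exp.2 this
    have e1 := wc_parityA hy0 hS hyA c
    have e2 := wc_parityA hy0 hS hyA c'
    have e1' : ((wc S A (2 * A) 3 c).card : ℝ)
        = (cls S A (2 * A) 1 1 c).card + (wc S (A / 2) (2 * (A / 2)) 3 (2 * c)).card := by
      exact_mod_cast e1
    have e2' : ((wc S A (2 * A) 3 c').card : ℝ)
        = (cls S A (2 * A) 1 1 c').card + (wc S (A / 2) (2 * (A / 2)) 3 (2 * c')).card := by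
      exact_mod_cast e2
    rw [e1', e2']
    have g1 : C / (Real.log A) ^ 2 * A ≤ C / T ^ 2 * A := by
      apply mul_le_mul_of_nonneg_right _ hA.le
      apply div_le_div_of_nonneg_left hC.le (by positivity)
      exact pow_le_pow_left₀ hTpos.le hTA' 2
    have g2 : 2 * C / T ^ 2 * (A / 2) = C / T ^ 2 * A := by ring
    have g3 : 2 * C / T ^ 2 * A = C / T ^ 2 * A + C / T ^ 2 * A := by ring
    have g4 : A / 2 / 2 ^ n = A / 2 ^ (n + 1) := by rw [pow_succ]; field_simp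
    rw [g2, g4] at hih
    rw [g3]
    linarith

theorem harm_q {d : ℤ} (hd : Odd d) (hd3 : IsCoprime d 3) {κ : ℝ} (hκ : 0 < κ) (hκ1 : κ ≤ 1 / 5) :
    ∃ C t₀ : ℝ, 0 < C ∧ 1000 ≤ t₀ ∧ ∀ y : ℝ, |(d : ℝ)| ≤ y → 1 ≤ y → ∀ S : Set ℤ, EInv y d S →
      ∀ T : ℝ, t₀ ≤ T → (1 + κ / 2) * Real.log y ≤ T → ∀ n : ℕ, 1 ≤ n → ∀ A : ℝ, 0 < A →
      T + n * Real.log 2 ≤ Real.log A →
      |((wc S A (2 * A) 1 0).card : ℝ) - (wc S (A / 2) (2 * (A / 2)) 1 0).card
        - (wc S (3 * A / 2) (2 * (3 * A / 2)) 1 0).card / 3| ≤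
        3 / 2 * (C / T ^ 2 * A + A / 2 ^ n) + |(d : ℝ)| + 2 := by
  obtain ⟨C, t₀, hC, ht₀, h⟩ := all_eq hd hd3 hκ hκ1
  refine ⟨C, t₀, hC, ht₀, ?_⟩
  intro y hdy hy1 S hS T hT hyT n hn A hA hTA
  have hy0 : 0 ≤ y := by linarith
  have hTpos : 0 < T := by linarith
  have hLy : 0 ≤ Real.log y := Real.log_nonneg hy1
  have hlyT : Real.log y < T := by
    rcases hLy.eq_or_lt with h0 | h0
    · rw [← h0]; exact hTpos
    · nlinarith
  have hyE : y < Real.exp T := by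
    rw [← Real.exp_log (by linarith : 0 < y)]
    exact Real.exp_lt_exp.2 hlyT
  have hl2 := Real.log_two_gt_d9
  have hlog : Real.log (A / 2) = Real.log A - Real.log 2 := Real.log_div hA.ne' (by norm_num)
  have hyA : y < A / 2 := by
    refine hyE.trans_le ?_
    have hn1 : (1 : ℝ) ≤ n := by exact_mod_cast hn
    have : T ≤ Real.log (A / 2) := by
      rw [hlog]
      nlinarith
    rw [← Real.exp_log (by linarith : 0 < A / 2)]
    exact Real.exp_le_exp.2 this
  have h1 := wc_parity_oneA hy0 hS hyA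
  have h2 := cls_odd_imageA hd hS (by linarith : y < A)
  have h1' : ((wc S A (2 * A) 1 0).card : ℝ)
      = (cls S A (2 * A) 0 1 0).card + (wc S (A / 2) (2 * (A / 2)) 1 0).card := by exact_mod_cast h1
  rw [h1', h2]
  set L := 3 * A / 2 with hL
  have hLpos : 0 < L := by positivity
  have hlogL : Real.log A ≤ Real.log L := Real.log_le_log hA (by rw [hL]; linarith)
  have h3 := wc_shift_le S L (d / 2) 3 (2 * d)
  have h4 := wc_shift_ge S L (d / 2) 3 (2 * d)
  have hthree : ((wc S L (2 * L) 1 0).card : ℝ)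
      = (wc S L (2 * L) 3 0).card + (wc S L (2 * L) 3 1).card + (wc S L (2 * L) 3 2).card := by
    exact_mod_cast wc_three S L (2 * L)
  have he' := fun c c' => h y hdy hy1 S hS T hT hyT n L hLpos (by linarith) c c'
  set W := fun c : ℤ => ((wc S L (2 * L) 3 c).card : ℝ) with hW
  set D := C / T ^ 2 * L + L / 2 ^ n + 1 with hD
  have u0 := he' (2 * d) 0
  have u1 := he' (2 * d) 1
  have u2 := he' (2 * d) 2
  have v0 := he' 0 (2 * d)
  have v1 := he' 1 (2 * d)
  have v2 := he' 2 (2 * d)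
  have hDe : D = 3 / 2 * (C / T ^ 2 * A + A / 2 ^ n) + 1 := by rw [hD, hL]; ring
  have hd2 : |(d : ℝ) / 2| = |(d : ℝ)| / 2 := by rw [abs_div, abs_of_pos (by norm_num : (0 : ℝ) < 2)]
  rw [hd2] at h3 h4
  have h0d : 0 ≤ |(d : ℝ)| := abs_nonneg _
  have hX : 3 / 2 * (C / T ^ 2 * A + A / 2 ^ n) + |(d : ℝ)| + 2 = D + |(d : ℝ)| + 1 := by
    rw [hDe]; ring
  rw [hX, abs_le]
  constructor <;> linarith

/-- a lower bound for the exponential function -/
theorem sq_le_exp {x : ℝ} (hx : 0 ≤ x) : x ^ 2 / 2 ≤ Real.exp x := by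
  have := Real.pow_div_factorial_le_exp x hx 2
  simpa using this

theorem qha : S_Qha := by
  intro d hd hd3 κ hκ hκ1
  obtain ⟨C, t₀, hC, ht₀, h⟩ := harm_q hd hd3 hκ hκ1
  have h0d : 0 ≤ |(d : ℝ)| := abs_nonneg _
  refine ⟨4 * C + 1000 / κ ^ 2 + 2 * |(d : ℝ)| + 4, 2 * t₀ + 32 / κ, by positivity, by
    have : 0 < 32 / κ := by positivity
    linarith, ?_⟩
  intro y hy1 hdy S hS t ht hyt
  have h16 : 0 < 32 / κ := by positivity
  have htpos : 0 < t := by linarith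
  have hκt : 32 ≤ κ * t := by
    have : 32 / κ ≤ t := by linarith
    rw [div_le_iff₀ hκ] at this
    linarith
  have hl2 := Real.log_two_gt_d9
  have hl2' := Real.log_two_lt_d9
  obtain ⟨T, hT⟩ : ∃ T : ℝ, T = (1 - κ / 8) * t := ⟨_, rfl⟩
  obtain ⟨n, hn⟩ : ∃ n : ℕ, n = ⌊κ * t / 8⌋₊ := ⟨_, rfl⟩
  have hn_le : (n : ℝ) ≤ κ * t / 8 := by rw [hn]; exact Nat.floor_le (by positivity)
  have hn_ge : κ * t / 8 - 1 ≤ n := by rw [hn]; linarith [Nat.lt_floor_add_one (κ * t / 8)]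
  have hn1 : 1 ≤ n := by
    have : (1 : ℝ) ≤ n := by linarith
    exact_mod_cast this
  have hTt : t / 2 ≤ T := by rw [hT]; nlinarith
  have hT0 : t₀ ≤ T := by linarith
  have hTpos : 0 < T := by linarith
  have hLy : 0 ≤ Real.log y := Real.log_nonneg hy1
  have hyT : (1 + κ / 2) * Real.log y ≤ T := by
    have h1 : (1 + κ / 2) * Real.log y ≤ (1 - κ / 8) * ((1 + κ) * Real.log y) := by
      have h2 : 0 ≤ κ * (3 / 8 - κ / 8) * Real.log y :=
        mul_nonneg (mul_nonneg hκ.le (by linarith)) hLy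
      nlinarith
    have h2 : (1 - κ / 8) * ((1 + κ) * Real.log y) ≤ (1 - κ / 8) * t :=
      mul_le_mul_of_nonneg_left hyt (by linarith)
    rw [hT]
    linarith
  have hnl : T + n * Real.log 2 ≤ t := by
    have h1 : (n : ℝ) * Real.log 2 ≤ κ * t / 8 * 1 :=
      mul_le_mul hn_le (by linarith) (by linarith) (by positivity)
    rw [hT]
    linarith
  have he := Real.exp_pos t
  have h1 := h y hdy hy1 S hS T hT0 hyT n hn1 (Real.exp t) he (by rw [Real.log_exp]; exact hnl)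
  have e1 : Real.exp (t - Real.log 2) = Real.exp t / 2 := by
    rw [Real.exp_sub, Real.exp_log (by norm_num)]
  have e2 : Real.exp (t + Real.log (3 / 2)) = 3 * Real.exp t / 2 := by
    rw [Real.exp_add, Real.exp_log (by norm_num)]; ring
  have w0 := Fd_win S t
  have w1 := Fd_win S (t - Real.log 2)
  have w2 := Fd_win S (t + Real.log (3 / 2))
  rw [e1] at w1
  rw [e2] at w2
  rw [← w0, ← w1, ← w2] at h1
  set A := Real.exp t with hA
  have hrel : Fd S t * (3 * A) - Fd S (t - Real.log 2) * (3 * (A / 2))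
      - Fd S (t + Real.log (3 / 2)) * (3 * (3 * A / 2)) / 3
      = (Fd S t - (Fd S (t - Real.log 2) + Fd S (t + Real.log (3 / 2))) / 2) * (3 * A) := by ring
  rw [hrel, abs_mul, abs_of_pos (by positivity : (0 : ℝ) < 3 * A)] at h1
  -- the three error terms
  have q1 : C / T ^ 2 * A ≤ 4 * C / t ^ 2 * A := by
    apply mul_le_mul_of_nonneg_right _ he.le
    rw [div_le_div_iff₀ (by positivity) (by positivity)]
    have : t ^ 2 ≤ 4 * T ^ 2 := by nlinarith
    nlinarith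
  have q2 : A / 2 ^ n ≤ 1000 / κ ^ 2 / t ^ 2 * A := by
    have g1 : Real.exp (κ * t / 16) ≤ 2 ^ n := by
      have g2 : (2 : ℝ) ^ n = Real.exp (n * Real.log 2) := by
        rw [mul_comm, Real.exp_mul, Real.exp_log (by norm_num), Real.rpow_natCast]
      rw [g2]
      apply Real.exp_le_exp.2
      have g6 : κ * t * 3 / 32 ≤ (n : ℝ) := by linarith
      have g7 : κ * t * 3 / 32 * Real.log 2 ≤ n * Real.log 2 :=
        mul_le_mul_of_nonneg_right g6 (by linarith)
      have g8 : κ * t * 3 / 32 * 0.6931471803 ≤ κ * t * 3 / 32 * Real.log 2 :=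
        mul_le_mul_of_nonneg_left hl2.le (by linarith)
      linarith
    have g3 := sq_le_exp (x := κ * t / 16) (by positivity)
    have g4 : κ ^ 2 * t ^ 2 / 1000 ≤ 2 ^ n := by
      refine le_trans ?_ (g3.trans g1)
      have : 0 ≤ κ ^ 2 * t ^ 2 := by positivity
      nlinarith
    have g5 : A / 2 ^ n ≤ A / (κ ^ 2 * t ^ 2 / 1000) :=
      div_le_div_of_nonneg_left he.le (by positivity) g4
    refine g5.trans (le_of_eq ?_)
    field_simp
  have q3 : |(d : ℝ)| + 2 ≤ (2 * |(d : ℝ)| + 4) / t ^ 2 * A := by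
    have h5 := sq_le_exp htpos.le
    rw [div_mul_eq_mul_div, le_div_iff₀ (by positivity)]
    nlinarith
  have hX := abs_nonneg (Fd S t - (Fd S (t - Real.log 2) + Fd S (t + Real.log (3 / 2))) / 2)
  have hsum : (4 * C + 1000 / κ ^ 2 + 2 * |(d : ℝ)| + 4) / t ^ 2 * A =
      4 * C / t ^ 2 * A + 1000 / κ ^ 2 / t ^ 2 * A + (2 * |(d : ℝ)| + 4) / t ^ 2 * A := by ring
  have p1 : 0 ≤ 4 * C / t ^ 2 * A := by positivity
  have p2 : 0 ≤ 1000 / κ ^ 2 / t ^ 2 * A := by positivity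
  have p3 : 0 ≤ (2 * |(d : ℝ)| + 4) / t ^ 2 * A := by positivity
  by_contra hcon
  push Not at hcon
  have h9 := mul_lt_mul_of_pos_right hcon (by positivity : (0 : ℝ) < 3 * A)
  linarith

end Pool.Agent.Q195.PD
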